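import Pool.Agent.H4.TA.Targets

set_option autoImplicit false

open Finset Pool.Agent.H43.TC Pool.Agent.H4.TA

namespace Pool.Agent.H98.TAS

lemma qq_nonneg (k t : ℕ) : 0 ≤ qq k t := av_nonneg fun _ => ind_nonneg _

lemma ind_sq (P : Prop) : ind P ^ 2 = ind P := by
  by_cases h : P
  · rw [ind_true h]; norm_num
  · rw [ind_false h]; norm_num

lemma sum_sq_le (n : ℕ) (a : ℕ → ℝ) :
    (∑ i ∈ range n, a i) ^ 2 = ∑ i ∈ range n, a i ^ 2 +
      2 * ∑ j ∈ range n, ∑ i ∈ range j, a i * a j := by
  induction n with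
  | zero => simp
  | succ n ih =>
    rw [sum_range_succ, sum_range_succ, sum_range_succ, add_sq, ih, ← sum_mul]
    ring

theorem pf_MOM (hAVQ : T_AVQ) (hNWC : T_NWC) (hNW2 : T_NW2) (hRCD : T_RCD) : T_MOM := by
  intro k t hk
  have hr : rng k t = ∑ i ∈ range (t + 1), qq k i := by
    unfold rng
    exact sum_congr rfl fun i _ => (hAVQ k i hk).symm
  have h1 : ∀ i ∈ range (t + 1), av t (fun w : Wd k t => ind (Nw w i)) = qq k i := fun i hi =>
    hNWC k t i hk (by have := mem_range.1 hi; omega)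
  constructor
  · simp_rw [hRCD k t]
    rw [av_sum, hr]
    exact sum_congr rfl h1
  · simp_rw [hRCD k t, sum_sq_le, ind_sq]
    rw [av_add, av_sum, sum_congr rfl h1, ← hr, av_mul, av_sum]
    refine add_le_add le_rfl (mul_le_mul_of_nonneg_left ?_ (by norm_num))
    have h2 : ∀ j ∈ range (t + 1), av t (fun w : Wd k t => ∑ i ∈ range j,
        ind (Nw w i) * ind (Nw w j)) ≤ ∑ i ∈ range j, qq k i * qq k (j - i) := by
      intro j hj
      rw [av_sum]
      refine sum_le_sum fun i hi => hNW2 k t i j hk (mem_range.1 hi) ?_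
      have := mem_range.1 hj
      omega
    refine (sum_le_sum h2).trans ?_
    have h3 : ∑ j ∈ range (t + 1), ∑ i ∈ range j, qq k i * qq k (j - i) =
        ∑ i ∈ range (t + 1), ∑ j ∈ Ico (i + 1) (t + 1), qq k i * qq k (j - i) := by
      refine sum_comm' fun j i => ?_
      simp only [mem_range, mem_Ico]
      omega
    rw [h3]
    refine sum_le_sum fun i hi => ?_
    rw [← mul_sum]
    refine mul_le_mul_of_nonneg_left ?_ (qq_nonneg k i)
    have h4 : ∑ j ∈ Ico (i + 1) (t + 1), qq k (j - i) = ∑ l ∈ Ico 1 (t + 1 - i), qq k l := by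
      have hi' := mem_range.1 hi
      have := sum_Ico_add' (fun l => qq k (l - i)) 1 (t + 1 - i) i
      rw [show t + 1 - i + i = t + 1 by omega, add_comm 1 i] at this
      rw [← this]
      refine sum_congr rfl fun l _ => ?_
      simp
    rw [h4]
    refine sum_le_sum_of_subset_of_nonneg ?_ fun l _ _ => qq_nonneg k l
    intro l hl
    rw [mem_range]
    exact (mem_Ico.1 hl).2

end Pool.Agent.H98.TAS
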