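import Pool.Agent.H4.TA.Targets

set_option autoImplicit false

open Finset Pool.Agent.H43.TC Pool.Agent.H4.TA

namespace Pool.Agent.H98.TAS

lemma pos_fst {k i j : ℕ} (w : Wd k (i + j)) {l : ℕ} (hl : l ≤ i) :
    pos w l = pos (fun x => w (Fin.castAdd j x) : Wd k i) l := by
  have h := pos_append_left (fun x => w (Fin.castAdd j x) : Wd k i)
    (fun x => w (Fin.natAdd i x) : Wd k j) hl
  rwa [Fin.append_castAdd_natAdd] at h

lemma pos_snd {k i j : ℕ} (w : Wd k (i + j)) (l : ℕ) :
    pos w (i + l) = pos (fun x => w (Fin.castAdd j x) : Wd k i) i +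
      pos (fun x => w (Fin.natAdd i x) : Wd k j) l := by
  have h := pos_append_right (fun x => w (Fin.castAdd j x) : Wd k i)
    (fun x => w (Fin.natAdd i x) : Wd k j) l
  rwa [Fin.append_castAdd_natAdd] at h

theorem pf_NW2 (hSPL : T_SPL) (hNWC : T_NWC) : T_NW2 := by
  intro k t i j hk hij hjt
  obtain ⟨a, rfl⟩ : ∃ a, j = i + a := ⟨j - i, by omega⟩
  obtain ⟨b, rfl⟩ : ∃ b, t = i + (a + b) := ⟨t - (i + a), by omega⟩
  rw [show i + a - i = a by omega]
  have h1 : av (i + (a + b)) (fun w : Wd k (i + (a + b)) => ind (Nw w i) * ind (Nw w (i + a))) ≤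
      av (i + (a + b)) (fun w : Wd k (i + (a + b)) =>
        (fun u : Wd k i => ind (Nw u i)) (fun l => w (Fin.castAdd (a + b) l)) *
        (fun v : Wd k (a + b) => ind (Nw (fun l => v (Fin.castAdd b l) : Wd k a) a))
          (fun l => w (Fin.natAdd i l))) := by
    refine av_mono fun w => ?_
    refine mul_le_mul (ind_mono fun h => ?_) (ind_mono fun h => ?_) (ind_nonneg _) (ind_nonneg _)
    · intro l hl
      have := h l hl
      rwa [pos_fst w hl.le, pos_fst w le_rfl] at this
    · intro l hl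
      have := h (i + l) (by omega)
      rw [pos_snd w l, pos_snd w a] at this
      intro h2
      apply this
      rw [pos_fst _ hl.le, pos_fst _ (le_refl a), h2]
  refine h1.trans (le_of_eq ?_)
  have h0 := hSPL k i (a + b) (fun u : Wd k i => ind (Nw u i))
    (fun v : Wd k (a + b) => ind (Nw (fun l => v (Fin.castAdd b l) : Wd k a) a)) hk
  have h2 := hSPL k a b (fun v => ind (Nw v a)) (fun _ => 1) hk
  rw [hNWC k a a hk le_rfl, av_const hk, mul_one] at h2
  simp only [mul_one] at h2
  rw [hNWC k i i hk le_rfl, h2] at h0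
  exact h0

end Pool.Agent.H98.TAS
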